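import Mathlib

/-!
# The dimension drops when an element of the maximal ideal is inverted
-/

set_option autoImplicit false

namespace Pool.Agent.QU77

open IsLocalRing

universe u v

theorem height_away {K : Type u} [CommRing K] [IsLocalRing K] {d : ℕ} (hd : ringKrullDim K ≤ d)
    (r : K) (hr : r ∈ maximalIdeal K) (A : Type v) [CommRing A] [Algebra K A]
    [IsLocalization.Away r A] (q : Ideal A) (hq : q.IsPrime) : q.height + 1 ≤ (d : ℕ∞) := by
  have h1 : (q.under K).height = q.height := IsLocalization.height_under (Submonoid.powers r) q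
  have hp : (q.under K).IsPrime := Ideal.IsPrime.under K q
  have hlt : q.under K < maximalIdeal K := by
    refine lt_of_le_of_ne (IsLocalRing.le_maximalIdeal hp.ne_top) ?_
    intro he
    rw [← he] at hr
    have h2 : algebraMap K A r ∈ q := hr
    exact hq.ne_top (Ideal.eq_top_of_isUnit_mem q h2 (IsLocalization.Away.algebraMap_isUnit r))
  have h3 := Ideal.height_add_one_le_of_lt_of_isPrime hlt
  rw [h1] at h3
  have h4 : ((maximalIdeal K).height : WithBot ℕ∞) ≤ (d : WithBot ℕ∞) := by
    rw [IsLocalRing.maximalIdeal_height_eq_ringKrullDim]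
    exact hd
  have h5 : (maximalIdeal K).height ≤ (d : ℕ∞) := by exact_mod_cast h4
  exact h3.trans h5

theorem dim_away' {K : Type u} [CommRing K] [IsLocalRing K] {d : ℕ} (hd : ringKrullDim K ≤ d)
    (r : K) (hr : r ∈ maximalIdeal K) (A : Type v) [CommRing A] [Algebra K A]
    [IsLocalization.Away r A] : ringKrullDim A + 1 ≤ d := by
  have key := height_away hd r hr A
  rcases subsingleton_or_nontrivial A with hs | hs
  · rw [ringKrullDim_eq_bot_of_subsingleton, WithBot.bot_add]
    exact bot_le
  · obtain ⟨q, hq⟩ := Ideal.exists_maximal A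
    rcases d with _ | d
    · have h1 := key q hq.isPrime
      simp at h1
    · have h1 : ringKrullDim A ≤ (d : WithBot ℕ∞) := by
        rw [ringKrullDim_le_iff_height_le]
        intro p hp
        have h2 := key p hp
        have h3 : p.height ≤ (d : ℕ∞) := by
          push_cast at h2
          exact (ENat.add_le_add_iff_right ENat.one_ne_top).1 h2
        exact_mod_cast h3
      push_cast
      exact add_le_add_left h1 1

/-- `dim K[1/r] + 1 ≤ dim K` for `r` in the maximal ideal of the local ring `K`. -/
theorem dim_away {K : Type u} [CommRing K] [IsLocalRing K] {d : ℕ} (hd : ringKrullDim K ≤ d)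
    (r : K) (hr : r ∈ maximalIdeal K) : ringKrullDim (Localization.Away r) + 1 ≤ d :=
  dim_away' hd r hr (Localization.Away r)

end Pool.Agent.QU77
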