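import Mathlib

/-!
# Bass: the stable range of a noetherian ring of finite dimension, and cancellation of free modules

`k` is larger than the heights of all primes of `A`.
-/

set_option autoImplicit false

namespace Pool.Agent.QU77

open Ideal

universe u v

variable {A : Type u} [CommRing A]

/-- Prime avoidance for a coset. -/
theorem exists_avoid (P : Finset (Ideal A)) (hP : ∀ p ∈ P, p.IsPrime)
    (hinc : ∀ p ∈ P, ∀ q ∈ P, p ≤ q → p = q) (a s : A) (hs : ∀ p ∈ P, s ∉ p) :
    ∃ c : A, ∀ p ∈ P, a + c * s ∉ p := by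
  classical
  set X := P.filter (fun p => a ∈ p) with hX
  set Y := P.filter (fun p => a ∉ p) with hY
  have h1 : ¬ (((Y.inf id : Ideal A) : Set A) ⊆ ⋃ i ∈ (↑X : Set (Ideal A)), (id i : Ideal A)) := by
    intro hsub
    obtain ⟨p, hp, hle⟩ := (Ideal.subset_union_prime (s := X) (f := id) ⊥ ⊥
      (fun i hi _ _ => hP i (Finset.mem_filter.1 hi).1)).1 hsub
    have hpp := hP p (Finset.mem_filter.1 hp).1
    rw [id, hpp.inf_le'] at hle
    obtain ⟨q, hq, hqp⟩ := hle
    have h2 := hinc q (Finset.mem_filter.1 hq).1 p (Finset.mem_filter.1 hp).1 hqp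
    have h3 := (Finset.mem_filter.1 hq).2
    rw [h2] at h3
    exact h3 (Finset.mem_filter.1 hp).2
  rw [Set.not_subset] at h1
  obtain ⟨c, hc, hcn⟩ := h1
  refine ⟨c, fun p hp hmem => ?_⟩
  have hpp := hP p hp
  by_cases ha : a ∈ p
  · have h2 : c * s ∈ p := by
      have h3 := p.sub_mem hmem ha
      rwa [add_sub_cancel_left] at h3
    rcases hpp.mem_or_mem h2 with h3 | h3
    · apply hcn
      simp only [Set.mem_iUnion]
      exact ⟨p, Finset.mem_coe.2 (Finset.mem_filter.2 ⟨hp, ha⟩), h3⟩
    · exact hs p hp h3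
  · have h2 : c ∈ p := by
      have h3 : Y.inf id ≤ p := Finset.inf_le (f := id) (Finset.mem_filter.2 ⟨hp, ha⟩)
      exact h3 hc
    apply ha
    have h3 := p.sub_mem hmem (p.mul_mem_right s h2)
    rwa [add_sub_cancel_right] at h3

variable [IsNoetherianRing A]

/-- General position. -/
theorem exists_height (a : ℕ → A) (s : A) (j : ℕ) :
    ∃ c : ℕ → A, ∀ q : Ideal A, q.IsPrime → (∀ i < j, a i + c i * s ∈ q) → s ∉ q →
      (j : ℕ∞) ≤ q.height := by
  classical
  induction j with
  | zero => exact ⟨fun _ => 0, fun q _ _ _ => by simp⟩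
  | succ j ih =>
    obtain ⟨c, hc⟩ := ih
    set I : Ideal A := Ideal.span ((fun i => a i + c i * s) '' {i | i < j}) with hI
    have hfin := I.finite_minimalPrimes_of_isNoetherianRing
    set P : Finset (Ideal A) := hfin.toFinset.filter (fun p => s ∉ p) with hPdef
    have hmem : ∀ p, p ∈ P ↔ p ∈ I.minimalPrimes ∧ s ∉ p := by
      intro p
      rw [hPdef, Finset.mem_filter, Set.Finite.mem_toFinset]
    obtain ⟨cj, hcj⟩ := exists_avoid P (fun p hp => ((hmem p).1 hp).1.1.1)
      (fun p hp q hq hpq => le_antisymm hpq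
        (((hmem q).1 hq).1.2 ⟨((hmem p).1 hp).1.1.1, ((hmem p).1 hp).1.1.2⟩ hpq)) (a j) s
      (fun p hp => ((hmem p).1 hp).2)
    refine ⟨Function.update c j cj, fun q hq hall hsq => ?_⟩
    have hIq : I ≤ q := by
      rw [hI, Ideal.span_le]
      rintro _ ⟨i, hi, rfl⟩
      have h1 := hall i (Nat.lt_succ_of_lt hi)
      rw [Function.update_of_ne (Nat.ne_of_lt hi)] at h1
      exact h1
    obtain ⟨p, hp, hpq⟩ := Ideal.exists_minimalPrimes_le hIq
    have hsp : s ∉ p := fun h => hsq (hpq h)
    have hpp : p.IsPrime := hp.1.1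
    have h1 := hcj p ((hmem p).2 ⟨hp, hsp⟩)
    have h2 := hall j (Nat.lt_succ_self j)
    rw [Function.update_self] at h2
    have hlt : p < q := lt_of_le_of_ne hpq (fun h => h1 (by rw [h]; exact h2))
    have h3 := hc p hpp (fun i hi => hp.1.2 (Ideal.subset_span ⟨i, hi, rfl⟩)) hsp
    have h4 := Ideal.height_add_one_le_of_lt_of_isPrime hlt
    push_cast
    exact (add_le_add_left h3 1).trans h4

/-- **Stable range.** -/
theorem exists_shorten {k : ℕ} (hk : ∀ p : Ideal A, p.IsPrime → p.height < k)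
    (v : Fin (k + 1) → A) (hv : Ideal.span (Set.range v) = ⊤) :
    ∃ c : Fin k → A,
      Ideal.span (Set.range fun i : Fin k => v i.castSucc + c i * v (Fin.last k)) = ⊤ := by
  obtain ⟨c, hc⟩ := exists_height (fun i => if h : i < k + 1 then v ⟨i, h⟩ else 0)
    (v (Fin.last k)) k
  refine ⟨fun i => c i, ?_⟩
  by_contra hne
  obtain ⟨q, hq, hle⟩ := Ideal.exists_le_maximal _ hne
  have hqp := hq.isPrime
  have hall : ∀ i : Fin k, v i.castSucc + c i * v (Fin.last k) ∈ q := fun i =>
    hle (Ideal.subset_span ⟨i, rfl⟩)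
  by_cases hs : v (Fin.last k) ∈ q
  · apply hq.ne_top
    rw [← top_le_iff, ← hv, Ideal.span_le]
    rintro _ ⟨i, rfl⟩
    refine Fin.lastCases hs (fun i => ?_) i
    have h1 := q.sub_mem (hall i) (q.mul_mem_left (c i) hs)
    rwa [add_sub_cancel_right] at h1
  · have h1 := hc q hqp (fun i hi => by
      have h2 := hall ⟨i, hi⟩
      rw [dif_pos (Nat.lt_succ_of_lt hi)]
      exact h2) hs
    exact absurd (hk q hqp) (not_lt.2 h1)

/-- The kernel of a unimodular row of length `k + 1` is free. -/
theorem ker_free {k : ℕ} (hk : ∀ p : Ideal A, p.IsPrime → p.height < k)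
    (f : (Fin (k + 1) → A) →ₗ[A] A) (hf : Function.Surjective f) :
    Nonempty (LinearMap.ker f ≃ₗ[A] (Fin k → A)) := by
  classical
  set v : Fin (k + 1) → A := fun i => f (Pi.single i 1) with hvdef
  have hfv : ∀ x, f x = ∑ i, x i * v i := by
    intro x
    conv_lhs => rw [← Finset.univ_sum_single x]
    rw [map_sum]
    refine Finset.sum_congr rfl fun i _ => ?_
    have h1 : (Pi.single i (x i) : Fin (k + 1) → A) = x i • Pi.single i 1 := by
      rw [← Pi.single_smul, smul_eq_mul, mul_one]
    rw [h1, map_smul, smul_eq_mul]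
  have hv : Ideal.span (Set.range v) = ⊤ := by
    obtain ⟨x, hx⟩ := hf 1
    rw [Ideal.eq_top_iff_one, ← hx, hfv]
    exact Ideal.sum_mem _ fun i _ => Ideal.mul_mem_left _ _ (Ideal.subset_span ⟨i, rfl⟩)
  obtain ⟨c, hc⟩ := exists_shorten hk v hv
  set b : Fin k → A := fun i => v i.castSucc + c i * v (Fin.last k) with hb
  have h1 : (1 : A) ∈ Ideal.span (Set.range b) := by rw [hc]; trivial
  rw [Ideal.mem_span_range_iff_exists_fun] at h1
  obtain ⟨w, hw⟩ := h1
  set vk := v (Fin.last k) with hvk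
  have hfs : ∀ x : Fin (k + 1) → A, f x =
      ∑ i : Fin k, x i.castSucc * b i + (x (Fin.last k) - ∑ i : Fin k, x i.castSucc * c i) * vk := by
    intro x
    rw [hfv, Fin.sum_univ_castSucc, sub_mul, Finset.sum_mul]
    have h2 : ∑ i : Fin k, x i.castSucc * b i =
        ∑ i : Fin k, x i.castSucc * v i.castSucc + ∑ i : Fin k, x i.castSucc * c i * vk := by
      rw [← Finset.sum_add_distrib]
      exact Finset.sum_congr rfl fun i _ => by rw [hb]; ring
    rw [h2]
    ring
  -- the map `x ↦ y`
  let F : LinearMap.ker f →ₗ[A] (Fin k → A) :=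
    { toFun := fun x i => x.1 i.castSucc +
        (vk - 1) * (x.1 (Fin.last k) - ∑ j : Fin k, x.1 j.castSucc * c j) * w i
      map_add' := by
        intro x y
        funext i
        simp only [Submodule.coe_add, Pi.add_apply, add_mul, Finset.sum_add_distrib]
        ring
      map_smul' := by
        intro r x
        funext i
        simp only [Submodule.coe_smul, Pi.smul_apply, smul_eq_mul, RingHom.id_apply, mul_assoc,
          ← Finset.mul_sum]
        ring }
  have key : ∀ x : LinearMap.ker f, ∑ i, F x i * b i =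
      -(x.1 (Fin.last k) - ∑ j : Fin k, x.1 j.castSucc * c j) := by
    intro x
    have h2 := LinearMap.mem_ker.1 x.2
    rw [hfs] at h2
    have h3 : ∑ i, F x i * b i = ∑ i : Fin k, x.1 i.castSucc * b i +
        (vk - 1) * (x.1 (Fin.last k) - ∑ j : Fin k, x.1 j.castSucc * c j) * ∑ i, w i * b i := by
      rw [Finset.mul_sum, ← Finset.sum_add_distrib]
      refine Finset.sum_congr rfl fun i _ => ?_
      change (x.1 i.castSucc + (vk - 1) * (x.1 (Fin.last k) -
        ∑ j : Fin k, x.1 j.castSucc * c j) * w i) * b i = _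
      ring
    rw [h3, hw]
    linear_combination h2
  refine ⟨LinearEquiv.ofBijective F ⟨?_, ?_⟩⟩
  · rw [injective_iff_map_eq_zero]
    intro x hx
    have h2 := key x
    rw [hx] at h2
    simp only [Pi.zero_apply, zero_mul, Finset.sum_const_zero] at h2
    have h3 : x.1 (Fin.last k) - ∑ j : Fin k, x.1 j.castSucc * c j = 0 := by
      linear_combination h2
    have h4 : ∀ i : Fin k, x.1 i.castSucc = 0 := by
      intro i
      have h5 := congrFun hx i
      change x.1 i.castSucc + (vk - 1) * (x.1 (Fin.last k) -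
        ∑ j : Fin k, x.1 j.castSucc * c j) * w i = 0 at h5
      rw [h3] at h5
      linear_combination h5
    apply Subtype.ext
    funext i
    refine Fin.lastCases ?_ (fun i => h4 i) i
    simp only [h4, zero_mul, Finset.sum_const_zero, sub_zero] at h3
    exact h3
  · intro y
    set t : A := -∑ i, y i * b i with ht
    set x0 : Fin k → A := fun i => y i - (vk - 1) * t * w i with hx0
    set x : Fin (k + 1) → A := Fin.snoc x0 (t + ∑ j, x0 j * c j) with hx
    have e1 : ∀ i : Fin k, x i.castSucc = x0 i := fun i => by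
      rw [hx]; exact Fin.snoc_castSucc (α := fun _ => A) _ _ i
    have e2 : x (Fin.last k) = t + ∑ j, x0 j * c j := by
      rw [hx]; exact Fin.snoc_last (α := fun _ => A) _ _
    have hmem : f x = 0 := by
      rw [hfs]
      simp only [e1, e2]
      have h3 : ∑ i, x0 i * b i = ∑ i, y i * b i - (vk - 1) * t * ∑ i, w i * b i := by
        rw [Finset.mul_sum, ← Finset.sum_sub_distrib]
        exact Finset.sum_congr rfl fun i _ => by rw [hx0]; ring
      rw [h3, hw]
      linear_combination -ht
    refine ⟨⟨x, LinearMap.mem_ker.2 hmem⟩, ?_⟩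
    funext i
    change x i.castSucc + (vk - 1) * (x (Fin.last k) - ∑ j : Fin k, x j.castSucc * c j) * w i = y i
    simp only [e1, e2]
    rw [hx0]
    ring

/-- Cancellation of one free summand. -/
theorem cancel_one {k : ℕ} (hk : ∀ p : Ideal A, p.IsPrime → p.height < k)
    {P : Type v} [AddCommGroup P] [Module A P] (e : (P × A) ≃ₗ[A] (Fin (k + 1) → A)) :
    Nonempty (P ≃ₗ[A] (Fin k → A)) := by
  have hsurj : Function.Surjective ((LinearMap.snd A P A).comp e.symm.toLinearMap) := by
    intro a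
    exact ⟨e (0, a), by simp⟩
  obtain ⟨g⟩ := ker_free hk ((LinearMap.snd A P A).comp e.symm.toLinearMap) hsurj
  have hmem : ∀ p : P, e.toLinearMap.comp (LinearMap.inl A P A) p ∈
      LinearMap.ker ((LinearMap.snd A P A).comp e.symm.toLinearMap) := by
    intro p
    rw [LinearMap.mem_ker]
    simp
  set G : P →ₗ[A] LinearMap.ker ((LinearMap.snd A P A).comp e.symm.toLinearMap) :=
    LinearMap.codRestrict _ (e.toLinearMap.comp (LinearMap.inl A P A)) hmem with hG
  suffices hbij : Function.Bijective G from ⟨(LinearEquiv.ofBijective G hbij).trans g⟩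
  constructor
  · intro p q hpq
    have h1 := congrArg Subtype.val hpq
    have h2 : e (p, 0) = e (q, 0) := h1
    exact (Prod.mk.inj (e.injective h2)).1
  · rintro ⟨x, hx⟩
    rw [LinearMap.mem_ker] at hx
    refine ⟨(e.symm x).1, Subtype.ext ?_⟩
    change e ((e.symm x).1, 0) = x
    have h1 : (e.symm x).2 = 0 := hx
    have h2 : ((e.symm x).1, (0 : A)) = e.symm x := Prod.ext rfl h1.symm
    rw [h2, LinearEquiv.apply_symm_apply]

/-- **Bass cancellation.** -/
theorem cancel {k : ℕ} (hk : ∀ p : Ideal A, p.IsPrime → p.height < k)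
    {P : Type v} [AddCommGroup P] [Module A P] (s m : ℕ) (hm : k ≤ m)
    (e : (P × (Fin s → A)) ≃ₗ[A] (Fin (m + s) → A)) :
    Nonempty (P ≃ₗ[A] (Fin m → A)) := by
  induction s with
  | zero =>
    exact ⟨(LinearEquiv.prodUnique (R := A) (M := P) (M₂ := Fin 0 → A)).symm.trans e⟩
  | succ s ih =>
    have e0 : ((Fin s → A) × A) ≃ₗ[A] (Fin (s + 1) → A) :=
      LinearEquiv.trans (LinearEquiv.prodComm A (Fin s → A) A)
        (Fin.consLinearEquiv A (fun _ : Fin (s + 1) => A))
    have e1 : ((P × (Fin s → A)) × A) ≃ₗ[A] (P × (Fin (s + 1) → A)) :=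
      (LinearEquiv.prodAssoc A P (Fin s → A) A).trans
        (LinearEquiv.prodCongr (LinearEquiv.refl A P) e0)
    have e2 : ((P × (Fin s → A)) × A) ≃ₗ[A] (Fin (m + s + 1) → A) := e1.trans e
    obtain ⟨e3⟩ := cancel_one (k := m + s) (fun p hp => lt_of_lt_of_le (hk p hp)
      (by exact_mod_cast (by omega : k ≤ m + s))) e2
    exact ih e3

/-- Stably free of large rank implies free. -/
theorem free_of_stably (D : ℕ) (hdim : ringKrullDim A ≤ D) {P : Type v} [AddCommGroup P]
    [Module A P] {s t : ℕ} (e : (P × (Fin s → A)) ≃ₗ[A] (Fin t → A)) (hst : D + 1 + s ≤ t) :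
    Module.Free A P := by
  have hk : ∀ p : Ideal A, p.IsPrime → p.height < ((D + 1 : ℕ) : ℕ∞) := by
    intro p hp
    have h1 : (p.height : WithBot ℕ∞) ≤ D := (Ideal.height_le_ringKrullDim_of_isPrime).trans hdim
    have h2 : p.height ≤ (D : ℕ∞) := by exact_mod_cast h1
    refine lt_of_le_of_lt h2 ?_
    exact_mod_cast Nat.lt_succ_self D
  obtain ⟨m, rfl⟩ : ∃ m, t = m + s := ⟨t - s, by omega⟩
  obtain ⟨g⟩ := cancel hk s m (by omega) e
  exact Module.Free.of_equiv g.symm

end Pool.Agent.QU77
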