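import Pool.Agent.Lib.QU53.R5

/-!
# Freeness is lifted along `K → K / x`

`K` a noetherian local domain, `x` a prime element, `M` an `x`-saturated submodule of `K ^ n`: if
the image of `M` in `(K / x) ^ n` is free then `M` is free.
-/

set_option autoImplicit false

namespace Pool.Agent.QU77

open IsLocalRing

universe u

/-- An `x`-saturated submodule of `K ^ n` with a free reduction is free. -/
theorem free_of_reduction {K : Type u} [CommRing K] [IsDomain K] [IsNoetherianRing K]
    [IsLocalRing K] {x : K} (hx : Prime x) {n : ℕ} (M : Submodule K (Fin n → K))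
    (hM : ∀ v, x • v ∈ M → v ∈ M)
    (N : Submodule (K ⧸ Ideal.span {x}) (Fin n → K ⧸ Ideal.span {x}))
    (hN : ∀ w, w ∈ N ↔ ∃ m ∈ M, (fun i => Ideal.Quotient.mk (Ideal.span {x}) (m i)) = w)
    (hfree : Module.Free (K ⧸ Ideal.span {x}) N) : Module.Free K M := by
  classical
  have hprime : (Ideal.span {x}).IsPrime := (Ideal.span_singleton_prime hx.ne_zero).2 hx
  -- reduction modulo `x`
  let π : (Fin n → K) →ₗ[K] (Fin n → K ⧸ Ideal.span {x}) :=
    LinearMap.pi fun i => (Algebra.linearMap K (K ⧸ Ideal.span {x})) ∘ₗ LinearMap.proj i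
  have hπ : ∀ v i, π v i = Ideal.Quotient.mk (Ideal.span {x}) (v i) := fun v i => rfl
  have hker : ∀ v : Fin n → K, π v = 0 → ∃ v', v = x • v' := by
    intro v hv
    have h1 : ∀ i, ∃ c, v i = x * c := by
      intro i
      have h2 : Ideal.Quotient.mk (Ideal.span {x}) (v i) = 0 := by
        rw [← hπ, hv]
        rfl
      exact Ideal.mem_span_singleton'.1 (Ideal.Quotient.eq_zero_iff_mem.1 h2) |>.imp
        fun c hc => by rw [← hc, mul_comm]
    choose v' hv' using h1
    exact ⟨v', funext fun i => by rw [hv']; rfl⟩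
  have hN' : ∀ w, w ∈ N ↔ ∃ m ∈ M, π m = w := hN
  have : IsDomain (K ⧸ Ideal.span {x}) := Ideal.Quotient.isDomain _
  have : Module.Finite (K ⧸ Ideal.span {x}) N := Module.Finite.iff_fg.2 (IsNoetherian.noetherian N)
  let b := Module.Free.chooseBasis (K ⧸ Ideal.span {x}) N
  have hb : ∀ i, ∃ c ∈ M, π c = (b i : Fin n → K ⧸ Ideal.span {x}) := fun i => (hN' _).1 (b i).2
  choose c hc hcb using hb
  -- generators
  have hspan : M ≤ Submodule.span K (Set.range c) := by
    refine Submodule.le_of_le_smul_of_le_jacobson_bot (I := Ideal.span {x})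
      (IsNoetherian.noetherian M) ?_ ?_
    · rw [IsLocalRing.jacobson_eq_maximalIdeal _ bot_ne_top, Ideal.span_le,
        Set.singleton_subset_iff]
      exact (IsLocalRing.mem_maximalIdeal _).2 hx.not_isUnit
    · intro v hv
      have h1 : (⟨π v, (hN' _).2 ⟨v, hv, rfl⟩⟩ : N) ∈
          Submodule.span (K ⧸ Ideal.span {x}) (Set.range b) := by
        rw [b.span_eq]
        trivial
      obtain ⟨g, hg⟩ := (Submodule.mem_span_range_iff_exists_fun _).1 h1
      choose g' hg' using fun i => Ideal.Quotient.mk_surjective (g i)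
      have h2 : π (v - ∑ i, g' i • c i) = 0 := by
        rw [map_sub, map_sum, sub_eq_zero]
        have h3 := congrArg (fun y : N => (y : Fin n → K ⧸ Ideal.span {x})) hg
        simp only [Submodule.coe_sum, Submodule.coe_smul] at h3
        rw [← h3]
        refine Finset.sum_congr rfl fun i _ => ?_
        rw [map_smul, hcb, ← hg']
        rfl
      obtain ⟨v', hv'⟩ := hker _ h2
      have h4 : v' ∈ M := hM v' (by
        rw [← hv']
        exact sub_mem hv (sum_mem fun i _ => M.smul_mem _ (hc i)))
      have h5 : v = ∑ i, g' i • c i + x • v' := by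
        rw [← hv']
        abel
      rw [h5]
      refine Submodule.add_mem_sup (sum_mem fun i _ => Submodule.smul_mem _ _
        (Submodule.subset_span ⟨i, rfl⟩)) ?_
      exact Submodule.smul_mem_smul (Ideal.mem_span_singleton_self x) h4
  -- independence
  have hli : LinearIndependent K c := by
    rw [Fintype.linearIndependent_iff]
    intro g hg i
    have h1 : ∀ (N' : ℕ) (g : Module.Free.ChooseBasisIndex (K ⧸ Ideal.span {x}) N → K),
        ∑ i, g i • c i = 0 → ∀ i, g i ∈ Ideal.span {x} ^ N' := by
      intro N'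
      induction N' with
      | zero => intro g _ i; simp
      | succ N' ih =>
        intro g hg i
        have h2 : ∑ i, Ideal.Quotient.mk (Ideal.span {x}) (g i) • b i = 0 := by
          apply Subtype.ext
          rw [Submodule.coe_sum]
          have h3 := congrArg π hg
          rw [map_sum, map_zero] at h3
          rw [Submodule.coe_zero, ← h3]
          refine Finset.sum_congr rfl fun i _ => ?_
          rw [map_smul, hcb]
          rfl
        have h3 := Fintype.linearIndependent_iff.1 b.linearIndependent _ h2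
        have h4 : ∀ i, ∃ g', g i = x * g' := fun i => by
          obtain ⟨a, ha⟩ := Ideal.mem_span_singleton'.1 (Ideal.Quotient.eq_zero_iff_mem.1 (h3 i))
          exact ⟨a, by rw [← ha, mul_comm]⟩
        choose g' hg' using h4
        have h5 : ∑ i, g' i • c i = 0 := by
          have h6 : x • ∑ i, g' i • c i = 0 := by
            rw [Finset.smul_sum, ← hg]
            refine Finset.sum_congr rfl fun i _ => ?_
            rw [hg' i, mul_smul]
          exact (smul_eq_zero.1 h6).resolve_left hx.ne_zero
        rw [hg' i, pow_succ']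
        exact Ideal.mul_mem_mul (Ideal.mem_span_singleton_self x) (ih g' h5 i)
    have h2 : g i ∈ ⨅ N' : ℕ, Ideal.span {x} ^ N' := by
      rw [Ideal.mem_iInf]
      exact fun N' => h1 N' g hg i
    rwa [Ideal.iInf_pow_eq_bot_of_isDomain _ hprime.ne_top, Ideal.mem_bot] at h2
  -- the basis
  have hli' : LinearIndependent K (fun i => (⟨c i, hc i⟩ : M)) :=
    LinearIndependent.of_comp M.subtype (by exact hli)
  have hsp' : ⊤ ≤ Submodule.span K (Set.range fun i => (⟨c i, hc i⟩ : M)) := by
    rintro ⟨v, hv⟩ -
    obtain ⟨g, hg⟩ := (Submodule.mem_span_range_iff_exists_fun _).1 (hspan hv)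
    refine (Submodule.mem_span_range_iff_exists_fun _).2 ⟨g, Subtype.ext ?_⟩
    rw [Submodule.coe_sum]
    exact hg
  exact Module.Free.of_basis (Module.Basis.mk hli' hsp')

/-- The relations of the generators of an `x`-saturated ideal, `K / x` of dimension two. -/
theorem free_rel {K : Type u} [CommRing K] [IsDomain K] [IsNoetherianRing K] [IsLocalRing K]
    {x : K} (hx : Prime x) {y : K ⧸ Ideal.span {x}} (hy : Prime y)
    [IsPrincipalIdealRing ((K ⧸ Ideal.span {x}) ⧸ Ideal.span {y})] {n : ℕ} (p : Fin n → K)
    (hp : ∀ k, x * k ∈ Ideal.span (Set.range p) → k ∈ Ideal.span (Set.range p))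
    (N : Submodule K (Fin n → K)) (hN : ∀ v, v ∈ N ↔ ∑ i, v i * p i = 0) : Module.Free K N := by
  have hprime : (Ideal.span {x}).IsPrime := (Ideal.span_singleton_prime hx.ne_zero).2 hx
  have hdom : IsDomain (K ⧸ Ideal.span {x}) := Ideal.Quotient.isDomain _
  have hloc : IsLocalRing (K ⧸ Ideal.span {x}) :=
    IsLocalRing.of_surjective' (Ideal.Quotient.mk _) Ideal.Quotient.mk_surjective
  let N' : Submodule (K ⧸ Ideal.span {x}) (Fin n → K ⧸ Ideal.span {x}) :=
    { carrier := {w | ∑ i, w i * Ideal.Quotient.mk (Ideal.span {x}) (p i) = 0}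
      add_mem' := by
        intro a b ha hb
        simp only [Set.mem_ofPred_eq, Pi.add_apply, add_mul, Finset.sum_add_distrib] at ha hb ⊢
        rw [ha, hb, add_zero]
      zero_mem' := by simp
      smul_mem' := by
        intro c a ha
        simp only [Set.mem_ofPred_eq, Pi.smul_apply, smul_eq_mul, mul_assoc] at ha ⊢
        rw [← Finset.mul_sum, ha, mul_zero] }
  have hN' : ∀ w, w ∈ N' ↔ ∑ i, w i * Ideal.Quotient.mk (Ideal.span {x}) (p i) = 0 :=
    fun w => Iff.rfl
  have hsat : ∀ v, x • v ∈ N → v ∈ N := by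
    intro v hv
    rw [hN] at hv ⊢
    have h1 : x * ∑ i, v i * p i = 0 := by
      rw [← hv, Finset.mul_sum]
      exact Finset.sum_congr rfl fun i _ => by rw [Pi.smul_apply, smul_eq_mul, mul_assoc]
    exact (mul_eq_zero.1 h1).resolve_left hx.ne_zero
  refine free_of_reduction hx N hsat N' ?_ ?_
  · intro w
    rw [hN']
    constructor
    · intro hw
      choose v hv using fun i => Ideal.Quotient.mk_surjective (w i)
      have h1 : Ideal.Quotient.mk (Ideal.span {x}) (∑ i, v i * p i) = 0 := by
        rw [map_sum, ← hw]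
        exact Finset.sum_congr rfl fun i _ => by rw [map_mul, hv]
      obtain ⟨k, hk⟩ := Ideal.mem_span_singleton'.1 (Ideal.Quotient.eq_zero_iff_mem.1 h1)
      have h2 : x * k ∈ Ideal.span (Set.range p) := by
        rw [mul_comm, hk]
        exact sum_mem fun i _ => Ideal.mul_mem_left _ _ (Ideal.subset_span ⟨i, rfl⟩)
      obtain ⟨u, hu⟩ := (Submodule.mem_span_range_iff_exists_fun K).1 (hp k h2)
      simp only [smul_eq_mul] at hu
      refine ⟨v - x • u, ?_, ?_⟩
      · rw [hN]
        simp only [Pi.sub_apply, Pi.smul_apply, smul_eq_mul, sub_mul, Finset.sum_sub_distrib,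
          mul_assoc]
        rw [← Finset.mul_sum, hu, ← hk, mul_comm, sub_self]
      · funext i
        rw [Pi.sub_apply, map_sub, hv, Pi.smul_apply, smul_eq_mul, map_mul,
          Ideal.Quotient.eq_zero_iff_mem.2 (Ideal.mem_span_singleton_self x), zero_mul, sub_zero]
    · rintro ⟨v, hv, rfl⟩
      rw [hN] at hv
      simp only [← map_mul, ← map_sum, hv, map_zero]
  · refine QU53.free_of_saturated hy N' fun v hv => ?_
    rw [hN'] at hv ⊢
    have h1 : y * ∑ i, v i * Ideal.Quotient.mk (Ideal.span {x}) (p i) = 0 := by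
      rw [← hv, Finset.mul_sum]
      exact Finset.sum_congr rfl fun i _ => by rw [Pi.smul_apply, smul_eq_mul, mul_assoc]
    exact (mul_eq_zero.1 h1).resolve_left hy.ne_zero

end Pool.Agent.QU77
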