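import Pool.Agent.Lib.QU77.Ufd

/-!
# Saturated submodules of rank one over a factorial ring
-/

set_option autoImplicit false

namespace Pool.Agent.QU77

universe u

/-- A saturated submodule of rank one of `K ^ m` is generated by one vector. -/
theorem rank_one_free {K : Type u} [CommRing K] [IsDomain K] [UniqueFactorizationMonoid K]
    {ι : Type*} [Fintype ι] (W : Submodule K (ι → K)) (hsat : ∀ (c : K) (v : ι → K), c ≠ 0 →
      c • v ∈ W → v ∈ W) (hprop : ∀ v ∈ W, ∀ w ∈ W, ∀ i j, v i * w j = v j * w i) :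
    ∃ w, W = Submodule.span K {w} := by
  classical
  by_cases hW : W = ⊥
  · exact ⟨0, by rw [hW, Submodule.span_zero_singleton]⟩
  obtain ⟨w0, hw0, hw00⟩ := Submodule.exists_mem_ne_zero_of_ne_bot hW
  obtain ⟨i0, hi0⟩ : ∃ i, w0 i ≠ 0 := by
    by_contra hno
    push Not at hno
    exact hw00 (funext hno)
  let _ : StrongNormalizationMonoid K := UniqueFactorizationMonoid.strongNormalizationMonoid
  let _ : NormalizedGCDMonoid K := UniqueFactorizationMonoid.toNormalizedGCDMonoid K
  obtain ⟨w, hw, hw1⟩ := Finset.extract_gcd w0 (s := Finset.univ) ⟨i0, Finset.mem_univ i0⟩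
  have hg : Finset.univ.gcd w0 ≠ 0 := fun h0 =>
    hi0 (Finset.gcd_eq_zero_iff.1 h0 i0 (Finset.mem_univ i0))
  have hwW : w ∈ W := hsat _ w hg (by
    have e : Finset.univ.gcd w0 • w = w0 := funext fun i => (hw i (Finset.mem_univ i)).symm
    rwa [e])
  have hwi : w i0 ≠ 0 := fun h0 => hi0 (by rw [hw i0 (Finset.mem_univ i0), h0, mul_zero])
  refine ⟨w, le_antisymm (fun v hv => ?_) ((Submodule.span_singleton_le_iff_mem _ _).2 hwW)⟩
  have h1 : w i0 ∣ v i0 := by
    have h2 : w i0 ∣ Finset.univ.gcd fun j => w j * v i0 :=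
      Finset.dvd_gcd fun j _ => ⟨v j, by rw [hprop w hwW v hv i0 j]⟩
    have h3 := (Finset.gcd_mul_right' (s := Finset.univ) (f := w) (v i0)).dvd
    rw [hw1, one_mul] at h3
    exact h2.trans h3
  obtain ⟨c, hc⟩ := h1
  refine Submodule.mem_span_singleton.2 ⟨c, funext fun j => ?_⟩
  have h2 := hprop w hwW v hv i0 j
  rw [hc] at h2
  refine mul_left_cancel₀ hwi ?_
  rw [Pi.smul_apply, smul_eq_mul, h2]
  ring

end Pool.Agent.QU77
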