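import Pool.Agent.Lib.QU62.Base

/-!
# Two small lemmas for `limit_core`
-/

set_option autoImplicit false
set_option linter.unusedSectionVars false

namespace Pool.Agent.QU77

open Pool.Agent.QU62 IsLocalRing

universe u w

variable {K R : Type u} [CommRing K] [IsDomain K] [IsNoetherianRing K] [IsLocalRing K]
    [CommRing R] [IsDomain R] [IsNoetherianRing R] [IsLocalRing R] [Algebra K R] {u x y : K}

theorem not_dvd_X (h : Ctx K R u x y) {N : ℕ} {X : K} {β : R} (hβ : IsUnit β)
    (hX : algebraMap K R X = β * algebraMap K R x ^ N) : ¬ u ∣ X := by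
  intro hd
  rw [← h.ker, hX] at hd
  rcases mul_eq_zero.1 hd with h0 | h0
  · exact hβ.ne_zero h0
  · exact h.two.px.ne_zero (eq_zero_of_pow_eq_zero h0)

theorem scal (h : Ctx K R u x y) {N i : ℕ} {X Y : K} {β β' : R} (hβ : IsUnit β)
    (hβ' : IsUnit β') (hX : algebraMap K R X = β * algebraMap K R x ^ N)
    (hY : algebraMap K R Y = β' * algebraMap K R y ^ N) {c d : K}
    (hcd : u ^ i ∣ X * d - Y * c) : ∃ e f, c = X * e + u ^ i * f := by
  induction i generalizing c d with
  | zero => exact ⟨0, c, by simp⟩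
  | succ i ih =>
    obtain ⟨t, ht⟩ := hcd
    have hu0 : algebraMap K R u = 0 := (h.ker u).2 dvd_rfl
    have h1 : β * algebraMap K R x ^ N * algebraMap K R d =
        β' * algebraMap K R y ^ N * algebraMap K R c := by
      have h2 := congrArg (algebraMap K R) ht
      rw [map_sub, map_mul, map_mul, map_mul, map_pow, hu0, hX, hY, pow_succ, mul_zero,
        zero_mul] at h2
      exact sub_eq_zero.1 h2
    have h2 : algebraMap K R x ^ N ∣ algebraMap K R c := by
      apply h.two.dvd_of_dvd_mul (m := N)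
      have h3 : algebraMap K R x ^ N ∣ β' * (algebraMap K R y ^ N * algebraMap K R c) := by
        refine ⟨β * algebraMap K R d, ?_⟩
        calc β' * (algebraMap K R y ^ N * algebraMap K R c)
            = β' * algebraMap K R y ^ N * algebraMap K R c := by ring
          _ = β * algebraMap K R x ^ N * algebraMap K R d := h1.symm
          _ = _ := by ring
      exact (hβ'.dvd_mul_left).1 h3
    obtain ⟨eb, heb⟩ := h2
    obtain ⟨γ, hγ⟩ := hβ.exists_left_inv
    obtain ⟨e, he⟩ := h.surj (γ * eb)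
    have h4 : u ∣ c - X * e := by
      rw [← h.ker, map_sub, map_mul, hX, he, heb]
      linear_combination (-(algebraMap K R x ^ N * eb)) * hγ
    obtain ⟨c1, hc1⟩ := h4
    have h5 : u ∣ X * (d - Y * e) := by
      refine ⟨u ^ i * t + Y * c1, ?_⟩
      have h6 : c = X * e + u * c1 := by linear_combination hc1
      rw [h6] at ht
      linear_combination ht
    rcases h.pu.dvd_or_dvd h5 with h6 | h6
    · exact absurd h6 (not_dvd_X h hβ hX)
    obtain ⟨d1, hd1⟩ := h6
    have h7 : u ^ i ∣ X * d1 - Y * c1 := by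
      refine ⟨t, ?_⟩
      apply mul_left_cancel₀ h.pu.ne_zero
      linear_combination ht - X * hd1 + Y * hc1
    obtain ⟨e1, f1, hef⟩ := ih h7
    exact ⟨e + u * e1, f1, by linear_combination hc1 + u * hef⟩

theorem pow_tf {M : Type w} [AddCommGroup M] [Module K M] (hM : TF u M) {X : K} (hX : ¬ u ∣ X) :
    ∀ (k : ℕ) (m z : M), X • m = u ^ k • z → ∃ m1, z = X • m1 := by
  intro k
  induction k with
  | zero => intro m z hz; exact ⟨m, by rw [hz, pow_zero, one_smul]⟩
  | succ k ih =>
    intro m z hz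
    have h1 : X • m = u • (u ^ k • z) := by rw [hz, pow_succ', mul_smul]
    obtain ⟨m1, hm1⟩ := hM.tf X m _ hX h1
    apply ih m1 z
    have h2 : u • (X • m1 - u ^ k • z) = 0 := by
      rw [smul_sub, ← h1, hm1, smul_comm, sub_self]
    exact sub_eq_zero.1 (hM.reg _ h2)

theorem last (h : Ctx K R u x y) {M : Type w} [AddCommGroup M] [Module K M] (hM : TF u M) (k : ℕ)
    {s : ℕ} {p : Fin s → M} {χ : Fin s → M →ₗ[K] K}
    (hproj : ∀ m : M, u ^ k • m = ∑ l, χ l m • p l) {N : ℕ} {X : K} {β : R} (hβ : IsUnit β)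
    (hX : algebraMap K R X = β * algebraMap K R x ^ N) {w : M}
    (hc : ∀ l, ∃ e f, χ l w = X * e + u ^ (k + 1) * f) :
    ∃ m₁ m₂ : M, w = X • m₁ + u • m₂ := by
  choose e f hef using hc
  have h1 : X • (∑ l, e l • p l) = u ^ k • (w - u • ∑ l, f l • p l) := by
    rw [smul_sub, hproj w, smul_smul, ← pow_succ, Finset.smul_sum, Finset.smul_sum,
      ← Finset.sum_sub_distrib]
    refine Finset.sum_congr rfl fun l _ => ?_
    rw [hef l, smul_smul, smul_smul, ← sub_smul]
    congr 1
    ring
  obtain ⟨m1, hm1⟩ := pow_tf hM (not_dvd_X h hβ hX) k _ _ h1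
  exact ⟨m1, ∑ l, f l • p l, by rw [← hm1, sub_add_cancel]⟩

end Pool.Agent.QU77
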