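import Pool.Agent.Lib.QU77.Lift

/-!
# Regular local rings of dimension three are factorial

* `dd φ v`: the determinant with the rows `v, φ_1, …, φ_m`;
* `exists_mul`: the relations of `p_0, …, p_m` free with basis `φ` ⟹ `p = t · (minors of φ)`;
* `ufd_of_three`: `K` a noetherian local domain, `x` a prime of `K`, `y` a prime of `K / x`,
  `(K / x) / y` a principal ideal ring ⟹ `K` is factorial.
-/

set_option autoImplicit false

namespace Pool.Agent.QU77

open IsLocalRing

universe u

section HB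

variable {K : Type u} [CommRing K] {m : ℕ}

/-- The determinant with the rows `v, φ_1, …, φ_m`. -/
noncomputable def dd (φ : Fin m → Fin (m + 1) → K) (v : Fin (m + 1) → K) : K :=
  Matrix.detRowAlternating (R := K) (n := Fin (m + 1)) (Fin.cons v φ : Fin (m + 1) → Fin (m + 1) → K)

theorem dd_add (φ : Fin m → Fin (m + 1) → K) (v w : Fin (m + 1) → K) :
    dd φ (v + w) = dd φ v + dd φ w := by
  unfold dd
  have h := (Matrix.detRowAlternating (R := K) (n := Fin (m + 1))).map_update_add
    (Fin.cons 0 φ : Fin (m + 1) → Fin (m + 1) → K) 0 v w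
  simpa only [Fin.update_cons_zero] using h

theorem dd_smul (φ : Fin m → Fin (m + 1) → K) (c : K) (v : Fin (m + 1) → K) :
    dd φ (c • v) = c * dd φ v := by
  unfold dd
  have h := (Matrix.detRowAlternating (R := K) (n := Fin (m + 1))).map_update_smul
    (Fin.cons 0 φ : Fin (m + 1) → Fin (m + 1) → K) 0 c v
  simpa only [Fin.update_cons_zero, smul_eq_mul] using h

theorem dd_self (φ : Fin m → Fin (m + 1) → K) (j : Fin m) : dd φ (φ j) = 0 := by
  unfold dd
  refine (Matrix.detRowAlternating (R := K) (n := Fin (m + 1))).map_eq_zero_of_eq _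
    (i := 0) (j := j.succ) ?_ (Fin.succ_ne_zero j).symm
  rw [Fin.cons_zero, Fin.cons_succ]

theorem dd_zero (φ : Fin m → Fin (m + 1) → K) : dd φ 0 = 0 := by
  have := dd_smul φ 0 0
  rwa [zero_smul, zero_mul] at this

theorem dd_sum (φ : Fin m → Fin (m + 1) → K) {ι : Type*} (s : Finset ι)
    (f : ι → Fin (m + 1) → K) : dd φ (∑ i ∈ s, f i) = ∑ i ∈ s, dd φ (f i) := by
  classical
  induction s using Finset.induction_on with
  | empty => rw [Finset.sum_empty, Finset.sum_empty, dd_zero]
  | insert a s ha ih => rw [Finset.sum_insert ha, Finset.sum_insert ha, dd_add, ih]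

theorem dd_span (φ : Fin m → Fin (m + 1) → K) {v : Fin (m + 1) → K}
    (hv : v ∈ Submodule.span K (Set.range φ)) : dd φ v = 0 := by
  obtain ⟨c, rfl⟩ := (Submodule.mem_span_range_iff_exists_fun _).1 hv
  rw [dd_sum]
  exact Finset.sum_eq_zero fun i _ => by rw [dd_smul, dd_self, mul_zero]

theorem dd_eq_det (φ : Fin m → Fin (m + 1) → K) (v : Fin (m + 1) → K) :
    dd φ v = (Matrix.of (Fin.cons v φ : Fin (m + 1) → Fin (m + 1) → K)).det := rfl

/-- The pairing. -/
def pr (p v : Fin (m + 1) → K) : K := ∑ i, v i * p i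

theorem pr_add (p v w : Fin (m + 1) → K) : pr p (v + w) = pr p v + pr p w := by
  simp only [pr, Pi.add_apply, add_mul, Finset.sum_add_distrib]

theorem pr_smul (p : Fin (m + 1) → K) (c : K) (v : Fin (m + 1) → K) :
    pr p (c • v) = c * pr p v := by
  simp only [pr, Pi.smul_apply, smul_eq_mul, mul_assoc, Finset.mul_sum]

theorem pr_sum (p : Fin (m + 1) → K) {ι : Type*} (s : Finset ι) (f : ι → Fin (m + 1) → K) :
    pr p (∑ i ∈ s, f i) = ∑ i ∈ s, pr p (f i) := by
  classical
  induction s using Finset.induction_on with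
  | empty => rw [Finset.sum_empty, Finset.sum_empty]; simp [pr]
  | insert a s ha ih => rw [Finset.sum_insert ha, Finset.sum_insert ha, pr_add, ih]

theorem pr_single (p : Fin (m + 1) → K) (i : Fin (m + 1)) : pr p (Pi.single i 1) = p i := by
  simp [pr, Pi.single_apply]

variable [IsDomain K] {φ : Fin m → Fin (m + 1) → K} {p : Fin (m + 1) → K}

omit [IsDomain K] in
/-- Proportionality. -/
theorem dd_mul_pr (hφ : ∀ v, pr p v = 0 → v ∈ Submodule.span K (Set.range φ))
    (v w : Fin (m + 1) → K) : pr p v * dd φ w = pr p w * dd φ v := by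
  have h1 : pr p (pr p v • w + (-pr p w) • v) = 0 := by
    rw [pr_add, pr_smul, pr_smul]
    ring
  have h2 := dd_span φ (hφ _ h1)
  rw [dd_add, dd_smul, dd_smul] at h2
  linear_combination h2

/-- A non-zero value. -/
theorem dd_ne_zero (hli : LinearIndependent K φ) (hp : ∀ j, pr p (φ j) = 0)
    {v : Fin (m + 1) → K} (hv : pr p v ≠ 0) : dd φ v ≠ 0 := by
  rw [dd_eq_det]
  intro h0
  obtain ⟨c, hc, hc0⟩ := Matrix.exists_vecMul_eq_zero_iff.2 h0
  have h1 : c 0 • v + ∑ j : Fin m, c j.succ • φ j = 0 := by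
    have e : (Matrix.vecMul c (Matrix.of (Fin.cons v φ : Fin (m + 1) → Fin (m + 1) → K))) =
        ∑ i : Fin (m + 1), c i • (Fin.cons v φ : Fin (m + 1) → Fin (m + 1) → K) i := by
      funext j
      rw [Matrix.vecMul, dotProduct, Finset.sum_apply]
      rfl
    rw [e, Fin.sum_univ_succ] at hc0
    simpa only [Fin.cons_zero, Fin.cons_succ] using hc0
  have h2 : c 0 = 0 := by
    have h3 := congrArg (pr p) h1
    rw [pr_add, pr_smul, pr_sum, Finset.sum_eq_zero fun j _ => by
      rw [pr_smul, hp, mul_zero], add_zero] at h3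
    have h4 : pr p (0 : Fin (m + 1) → K) = 0 := by simp [pr]
    rw [h4] at h3
    exact (mul_eq_zero.1 h3).resolve_right hv
  rw [h2, zero_smul, zero_add] at h1
  have h3 := Fintype.linearIndependent_iff.1 hli _ h1
  refine hc (funext fun i => ?_)
  refine Fin.cases h2 (fun j => h3 j) i

omit [IsDomain K] in
/-- If the minors of `φ` are in the prime `Q`, the rows of `φ` are dependent modulo `Q`. -/
theorem exists_dep (Q : Ideal K) [Q.IsPrime] (hQ : ∀ v, dd φ v ∈ Q) :
    ∃ c : Fin m → K, (∃ j, c j ∉ Q) ∧ ∀ i, (∑ j, c j • φ j) i ∈ Q := by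
  classical
  let κ := FractionRing (K ⧸ Q)
  let f : K →+* κ := (algebraMap (K ⧸ Q) κ).comp (Ideal.Quotient.mk Q)
  have hf : ∀ a, f a = 0 ↔ a ∈ Q := fun a => by
    have hinj : Function.Injective (algebraMap (K ⧸ Q) κ) := IsFractionRing.injective _ _
    rw [RingHom.comp_apply, map_eq_zero_iff _ hinj, Ideal.Quotient.eq_zero_iff_mem]
  let ψ : Fin m → Fin (m + 1) → κ := fun j i => f (φ j i)
  -- the rows are dependent over `κ`
  have h1 : ¬LinearIndependent κ ψ := by
    intro hli
    -- extend by one vector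
    have h2 : ∃ w : Fin (m + 1) → κ, w ∉ Submodule.span κ (Set.range ψ) := by
      by_contra hno
      push Not at hno
      have h3 : Submodule.span κ (Set.range ψ) = ⊤ := eq_top_iff.2 fun w _ => hno w
      have h4 := finrank_span_eq_card hli
      rw [h3, finrank_top, Module.finrank_fin_fun, Fintype.card_fin] at h4
      omega
    obtain ⟨w, hw⟩ := h2
    have h3 : LinearIndependent κ (Fin.cons w ψ : Fin (m + 1) → Fin (m + 1) → κ) :=
      linearIndependent_finCons.2 ⟨hli, hw⟩
    have h4 : (Matrix.of (Fin.cons w ψ : Fin (m + 1) → Fin (m + 1) → κ)).det ≠ 0 := by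
      intro h0
      obtain ⟨c, hc, hc0⟩ := Matrix.exists_vecMul_eq_zero_iff.2 h0
      have e : (Matrix.vecMul c (Matrix.of (Fin.cons w ψ : Fin (m + 1) → Fin (m + 1) → κ))) =
          ∑ i : Fin (m + 1), c i • (Fin.cons w ψ : Fin (m + 1) → Fin (m + 1) → κ) i := by
        funext j
        rw [Matrix.vecMul, dotProduct, Finset.sum_apply]
        rfl
      rw [e] at hc0
      exact hc (funext fun i => Fintype.linearIndependent_iff.1 h3 _ hc0 i)
    -- but all the determinants vanish
    have h5 : ∀ i, dd ψ (Pi.single i 1) = 0 := by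
      intro i
      have h6 := hQ (Pi.single i 1)
      rw [← hf] at h6
      rw [← h6, dd_eq_det, dd_eq_det, RingHom.map_det]
      congr 1
      ext a b
      refine Fin.cases ?_ (fun j => ?_) a
      · simp only [Matrix.of_apply, Fin.cons_zero, RingHom.mapMatrix_apply, Matrix.map_apply]
        by_cases hib : b = i
        · rw [hib, Pi.single_eq_same, Pi.single_eq_same, map_one]
        · rw [Pi.single_eq_of_ne hib, Pi.single_eq_of_ne hib, map_zero]
      · simp only [Matrix.of_apply, Fin.cons_succ, RingHom.mapMatrix_apply, Matrix.map_apply]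
        rfl
    have h6 : dd ψ w = 0 := by
      have e : w = ∑ i, w i • (Pi.single i 1 : Fin (m + 1) → κ) := by
        funext j
        simp [Finset.sum_apply, Pi.single_apply]
      rw [e, dd_sum]
      exact Finset.sum_eq_zero fun i _ => by rw [dd_smul, h5, mul_zero]
    exact h4 h6
  -- clear the denominators
  rw [Fintype.linearIndependent_iff] at h1
  push Not at h1
  obtain ⟨g, hg, j0, hj0⟩ := h1
  obtain ⟨s, hs⟩ := IsLocalization.exist_integer_multiples_of_finite (nonZeroDivisors (K ⧸ Q)) g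
  choose d hd using hs
  choose c hc using fun j => Ideal.Quotient.mk_surjective (d j)
  have hs0 : algebraMap (K ⧸ Q) κ s ≠ 0 :=
    IsLocalization.to_map_ne_zero_of_mem_nonZeroDivisors _ le_rfl s.2
  have h2 : ∀ j, f (c j) = algebraMap (K ⧸ Q) κ s * g j := fun j => by
    rw [RingHom.comp_apply, hc, hd]
    exact Algebra.smul_def _ _
  refine ⟨c, ⟨j0, fun h3 => ?_⟩, fun i => ?_⟩
  · rw [← hf, h2] at h3
    exact (mul_ne_zero hs0 hj0) h3
  · rw [← hf, Finset.sum_apply, map_sum]
    have h3 := congrFun hg i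
    rw [Finset.sum_apply] at h3
    have h4 : ∀ j, f ((c j • φ j) i) = algebraMap (K ⧸ Q) κ s * (g j • ψ j) i := fun j => by
      rw [Pi.smul_apply, smul_eq_mul, map_mul, h2, Pi.smul_apply, smul_eq_mul, mul_assoc]
    rw [Finset.sum_congr rfl fun j _ => h4 j, ← Finset.mul_sum, h3, Pi.zero_apply, mul_zero]

/-- **The minors of `φ` are not in a prime of the form `(f : h)`.** -/
theorem not_assoc (hli : LinearIndependent K φ) (hp : ∀ j, pr p (φ j) = 0)
    (hφ : ∀ v, pr p v = 0 → v ∈ Submodule.span K (Set.range φ)) (Q : Ideal K) [Q.IsPrime]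
    {f h : K} (hf : f ≠ 0) (hQf : ∀ a, a ∈ Q ↔ f ∣ a * h) : ∃ v, dd φ v ∉ Q := by
  by_contra hno
  push Not at hno
  obtain ⟨c, ⟨j0, hj0⟩, hc⟩ := exists_dep Q hno
  refine hj0 ((hQf _).2 ?_)
  have h1 : ∀ i, ∃ w, (∑ j, c j • φ j) i * h = f * w := fun i => (hQf _).1 (hc i)
  choose w hw using h1
  have h2 : f • w = h • ∑ j, c j • φ j := by
    funext i
    rw [Pi.smul_apply, Pi.smul_apply, smul_eq_mul, smul_eq_mul, ← hw, mul_comm]
  have h3 : pr p w = 0 := by
    have h4 : f * pr p w = 0 := by
      rw [← pr_smul, h2, pr_smul, pr_sum, Finset.sum_eq_zero fun j _ => by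
        rw [pr_smul, hp, mul_zero], mul_zero]
    exact (mul_eq_zero.1 h4).resolve_left hf
  obtain ⟨c', hc'⟩ := (Submodule.mem_span_range_iff_exists_fun _).1 (hφ w h3)
  have h4 : ∑ j, (f * c' j - h * c j) • φ j = 0 := by
    simp only [sub_smul, mul_smul, Finset.sum_sub_distrib]
    rw [← Finset.smul_sum, ← Finset.smul_sum, hc', h2, sub_self]
  have h5 := Fintype.linearIndependent_iff.1 hli _ h4 j0
  exact ⟨c' j0, by linear_combination -h5⟩

omit [IsDomain K] in
/-- An associated prime of `K / (f)`. -/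
theorem exists_of_assoc [IsNoetherianRing K] {f : K} {Q : Ideal K}
    (hQ : IsAssociatedPrime Q (K ⧸ Ideal.span {f})) : ∃ h : K, ∀ a, a ∈ Q ↔ f ∣ a * h := by
  obtain ⟨-, y, hy⟩ := isAssociatedPrime_iff.1 hQ
  obtain ⟨h, rfl⟩ := Ideal.Quotient.mk_surjective y
  refine ⟨h, fun a => ?_⟩
  rw [hy, Submodule.mem_colon_singleton, Submodule.mem_bot, ← Ideal.mem_span_singleton,
    ← Ideal.Quotient.eq_zero_iff_mem, map_mul]
  rfl

/-- **The relations of `p` are free with basis `φ`: `p` is proportional to the minors.** -/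
theorem exists_mul [IsNoetherianRing K] (hli : LinearIndependent K φ) (hp : ∀ j, pr p (φ j) = 0)
    (hφ : ∀ v, pr p v = 0 → v ∈ Submodule.span K (Set.range φ)) (hp0 : ∃ v, pr p v ≠ 0) :
    ∃ t, ∀ v, pr p v = t * dd φ v := by
  obtain ⟨w, hw⟩ := hp0
  have hf : dd φ w ≠ 0 := dd_ne_zero hli hp hw
  suffices h : dd φ w ∣ pr p w by
    obtain ⟨t, ht⟩ := h
    refine ⟨t, fun v => ?_⟩
    have h1 := dd_mul_pr hφ v w
    rw [ht] at h1
    refine mul_right_cancel₀ hf ?_
    rw [h1]
    ring
  by_contra hno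
  -- an associated prime
  let x : K ⧸ Ideal.span {dd φ w} := Ideal.Quotient.mk _ (pr p w)
  have hx : x ≠ 0 := fun h0 =>
    hno (Ideal.mem_span_singleton.1 (Ideal.Quotient.eq_zero_iff_mem.1 h0))
  obtain ⟨Q, hQ, hle⟩ := exists_le_isAssociatedPrime_of_isNoetherianRing K x hx
  have hprime : Q.IsPrime := hQ.isPrime
  obtain ⟨h, hh⟩ := exists_of_assoc hQ
  obtain ⟨v, hv⟩ := not_assoc hli hp hφ Q hf hh
  refine hv (hle ?_)
  rw [Submodule.mem_colon_singleton, Submodule.mem_bot]
  have h1 : dd φ w ∣ dd φ v * pr p w := ⟨pr p v, by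
    rw [mul_comm, dd_mul_pr hφ w v, mul_comm]⟩
  exact Ideal.Quotient.eq_zero_iff_mem.2 (Ideal.mem_span_singleton.2 h1)

end HB

/-- The relations of a nonzero `p` in a domain, if they are free, have rank `n - 1`. -/
theorem card_basis {K : Type u} [CommRing K] [IsDomain K] {n : ℕ} (p : Fin n → K)
    (hp : ∃ i, p i ≠ 0) {ι : Type*} [Fintype ι] (N : Submodule K (Fin n → K))
    (hN : ∀ v, v ∈ N ↔ ∑ i, v i * p i = 0) (b : Module.Basis ι K N) : Fintype.card ι + 1 = n := by
  classical
  obtain ⟨i0, hi0⟩ := hp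
  have h1 : Module.finrank K N = Fintype.card ι := Module.finrank_eq_card_basis b
  let l : (Fin n → K) →ₗ[K] K :=
    { toFun := fun v => ∑ i, v i * p i
      map_add' := fun v w => by simp only [Pi.add_apply, add_mul, Finset.sum_add_distrib]
      map_smul' := fun c v => by
        simp only [Pi.smul_apply, smul_eq_mul, mul_assoc, Finset.mul_sum, RingHom.id_apply] }
  have hl : LinearMap.ker l = N := by
    ext v
    rw [LinearMap.mem_ker, hN]
    rfl
  have h2 : Module.finrank K (LinearMap.range l) + Fintype.card ι = n := by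
    have h3 := (LinearMap.ker l).finrank_quotient_add_finrank
    rw [Module.finrank_fin_fun] at h3
    rw [← l.quotKerEquivRange.finrank_eq, ← h1, ← hl]
    exact h3
  have hne : Nontrivial (LinearMap.range l) := by
    refine ⟨⟨l (Pi.single i0 1), ⟨_, rfl⟩⟩, 0, fun h0 => hi0 ?_⟩
    have h3 : ∑ i, (Pi.single i0 1 : Fin n → K) i * p i = 0 := congrArg Subtype.val h0
    simpa [Pi.single_apply] using h3
  have h3 : 0 < Module.finrank K (LinearMap.range l) := Module.finrank_pos
  have h4 : Module.finrank K (LinearMap.range l) ≤ Module.finrank K K :=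
    Submodule.finrank_le _
  rw [Module.finrank_self] at h4
  omega

/-- **Regular local rings of dimension three are factorial.** -/
theorem ufd_of_three {K : Type u} [CommRing K] [IsDomain K] [IsNoetherianRing K] [IsLocalRing K]
    {x : K} (hx : Prime x) {y : K ⧸ Ideal.span {x}} (hy : Prime y)
    [IsPrincipalIdealRing ((K ⧸ Ideal.span {x}) ⧸ Ideal.span {y})] :
    UniqueFactorizationMonoid K := by
  classical
  rw [UniqueFactorizationMonoid.iff_exists_prime_mem_of_isPrime]
  intro P0 hP0 hP0p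
  by_cases hxP : x ∈ P0
  · exact ⟨x, hxP, hx⟩
  obtain ⟨f0, hf0, hf00⟩ := Submodule.exists_mem_ne_zero_of_ne_bot hP0
  -- a minimal prime of `f0`
  obtain ⟨P, hPmin, hPle⟩ := Ideal.exists_minimalPrimes_le
    ((Ideal.span_singleton_le_iff_mem P0).2 hf0)
  have hPp : P.IsPrime := hPmin.1.1
  have hf0P : f0 ∈ P := hPmin.1.2 (Ideal.mem_span_singleton_self f0)
  have hxP' : x ∉ P := fun h => hxP (hPle h)
  have hass : IsAssociatedPrime P (K ⧸ Ideal.span {f0}) := by
    refine Module.associatedPrimes.minimalPrimes_annihilator_subset_associatedPrimes K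
      (K ⧸ Ideal.span {f0}) ?_
    rwa [Ideal.annihilator_quotient]
  obtain ⟨h, hh⟩ := exists_of_assoc hass
  -- generators
  obtain ⟨n, p, hspan⟩ := Submodule.fg_iff_exists_fin_generating_family.1
    (IsNoetherian.noetherian P)
  have hspan' : Ideal.span (Set.range p) = P := hspan
  have hp0 : ∃ i, p i ≠ 0 := by
    by_contra hno
    push Not at hno
    refine hf00 ?_
    rw [← hspan'] at hf0P
    have h1 : Ideal.span (Set.range p) = ⊥ := by
      rw [Ideal.span_eq_bot]
      rintro _ ⟨i, rfl⟩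
      exact hno i
    rwa [h1, Ideal.mem_bot] at hf0P
  let N : Submodule K (Fin n → K) :=
    { carrier := {v | ∑ i, v i * p i = 0}
      add_mem' := by
        intro a b ha hb
        simp only [Set.mem_ofPred_eq, Pi.add_apply, add_mul, Finset.sum_add_distrib] at ha hb ⊢
        rw [ha, hb, add_zero]
      zero_mem' := by simp
      smul_mem' := by
        intro c a ha
        simp only [Set.mem_ofPred_eq, Pi.smul_apply, smul_eq_mul, mul_assoc] at ha ⊢
        rw [← Finset.mul_sum, ha, mul_zero] }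
  have hN : ∀ v, v ∈ N ↔ ∑ i, v i * p i = 0 := fun v => Iff.rfl
  have hfree : Module.Free K N := free_rel hx hy p (fun k hk => by
    rw [hspan'] at hk ⊢
    exact (hPp.mem_or_mem hk).resolve_left hxP') N hN
  have : Module.Finite K N := Module.Finite.iff_fg.2 (IsNoetherian.noetherian N)
  let b := Module.Free.chooseBasis K N
  have hcard := card_basis p hp0 N hN b
  obtain ⟨m, rfl⟩ : ∃ m, n = m + 1 := ⟨_, hcard.symm⟩
  have hcard' : Fintype.card (Module.Free.ChooseBasisIndex K N) = m := by omega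
  let b' := b.reindex (Fintype.equivFinOfCardEq hcard')
  let φ : Fin m → Fin (m + 1) → K := fun j => (b' j : Fin (m + 1) → K)
  have hli : LinearIndependent K φ :=
    b'.linearIndependent.map' N.subtype (Submodule.ker_subtype N)
  have hpφ : ∀ j, pr p (φ j) = 0 := fun j => (b' j).2
  have hφ : ∀ v, pr p v = 0 → v ∈ Submodule.span K (Set.range φ) := by
    intro v hv
    have h1 : (⟨v, hv⟩ : N) ∈ Submodule.span K (Set.range b') := by
      rw [b'.span_eq]
      trivial
    obtain ⟨c, hc⟩ := (Submodule.mem_span_range_iff_exists_fun _).1 h1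
    refine (Submodule.mem_span_range_iff_exists_fun _).2 ⟨c, ?_⟩
    have h2 := congrArg (fun z : N => (z : Fin (m + 1) → K)) hc
    simp only [Submodule.coe_sum, Submodule.coe_smul] at h2
    exact h2
  obtain ⟨i0, hi0⟩ := hp0
  obtain ⟨t, ht⟩ := exists_mul hli hpφ hφ ⟨Pi.single i0 1, by rwa [pr_single]⟩
  have hP' : ∀ a, a ∈ P → t ∣ a := by
    intro a ha
    rw [← hspan'] at ha
    have h1 : Ideal.span (Set.range p) ≤ Ideal.span {t} := by
      rw [Ideal.span_le]
      rintro _ ⟨i, rfl⟩
      rw [SetLike.mem_coe, Ideal.mem_span_singleton, ← pr_single p i, ht]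
      exact dvd_mul_right _ _
    exact Ideal.mem_span_singleton.1 (h1 ha)
  have htP : t ∈ P := by
    by_contra hno
    obtain ⟨v, hv⟩ := not_assoc hli hpφ hφ P hf00 hh
    refine hv ((hPp.mem_or_mem (?_ : t * dd φ v ∈ P)).resolve_left hno)
    rw [← ht, ← hspan']
    exact sum_mem fun i _ => Ideal.mul_mem_left _ _ (Ideal.subset_span ⟨i, rfl⟩)
  have ht0 : t ≠ 0 := fun h0 => hf00 (by
    have := hP' f0 hf0P
    rwa [h0, zero_dvd_iff] at this)
  refine ⟨t, hPle htP, ?_⟩
  rw [← Ideal.span_singleton_prime ht0]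
  have e : Ideal.span {t} = P := le_antisymm ((Ideal.span_singleton_le_iff_mem P).2 htP)
    fun a ha => Ideal.mem_span_singleton.2 (hP' a ha)
  rwa [e]

end Pool.Agent.QU77
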